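import Pool.Agent.Helper19.RG.Arcs

/-!
Uncrossing a minimal side with at least nine vertices.  (Problem MP_d067c8_co.)
-/

namespace Pool.Agent.Helper49.RG

open Finset Pool.Agent.Helper19.CF Pool.Agent.Helper19.RG

section gen

variable {V : Type*} [Fintype V] [DecidableEq V] (G : SimpleGraph V) [DecidableRel G.Adj]
  (hreg : ∀ v, G.degree v = 3)

include hreg

/-- Uncrossing: `M` is a side with at least nine vertices, minimal among these; no side with nine
vertices contains a side with seven vertices. -/
theorem uncross9 (hcyc : CyclicallyEdgeConnected G 5) (M Y : Finset V) (hM : dd G M = 5)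
    (hY : dd G Y = 5) (hM9 : 9 ≤ M.card) (hM7' : 7 ≤ Mᶜ.card) (hY7 : 7 ≤ Y.card)
    (hY7' : 7 ≤ Yᶜ.card) (hmin : ∀ X ⊆ M, dd G X = 5 → 9 ≤ X.card → X = M)
    (h9 : ∀ X Z : Finset V, dd G X = 5 → dd G Z = 5 → X ⊆ Z → X.card = 7 → Z.card = 9 →
      7 ≤ Zᶜ.card → False)
    (hodd : (M ∩ Y).card % 2 = 1) (hMY : ¬ M ⊆ Y) :
    Y.card = 7 ∧ (Y ⊆ M ∨ ((M ∩ Y).card = 5 ∧ (Y \ M).card = 2 ∧ dd G (M ∩ Y) = 5 ∧
      eb G (M \ Y) (Y \ M) = 0)) := by
  set A := M ∩ Y with hA
  set B := M \ Y with hB
  set C := Y \ M with hC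
  set D := (M ∪ Y)ᶜ with hD
  have e1 := dd_add G M Y
  have e2 := dd_add' G M Y
  rw [← hA, ← hB, ← hC] at e1
  rw [← hA, ← hB, ← hC, ← hD] at e2
  have c1 : A.card + B.card = M.card := by
    rw [hA, hB]
    exact card_inter_add_card_sdiff M Y
  have c2 : A.card + C.card = Y.card := by
    rw [hA, hC, inter_comm]
    exact card_inter_add_card_sdiff Y M
  have c3 : D.card + C.card = Mᶜ.card := by
    have h1 : Mᶜ = D ∪ C := by
      ext x
      simp only [hD, hC, mem_compl, mem_union, mem_sdiff]
      tauto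
    rw [h1, card_union_of_disjoint]
    rw [disjoint_left]
    intro x
    simp only [hD, hC, mem_compl, mem_union, mem_sdiff]
    tauto
  have c4 : D.card + B.card = Yᶜ.card := by
    have h1 : Yᶜ = D ∪ B := by
      ext x
      simp only [hD, hB, mem_compl, mem_union, mem_sdiff]
      tauto
    rw [h1, card_union_of_disjoint]
    rw [disjoint_left]
    intro x
    simp only [hD, hB, mem_compl, mem_union, mem_sdiff]
    tauto
  have pM := parity G hreg M
  have pY := parity G hreg Y
  have pA := parity G hreg A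
  have pB := parity G hreg B
  have pC := parity G hreg C
  have pD := parity G hreg D
  have dD : dd G D = dd G (M ∪ Y) := by rw [hD, dd_compl]
  have cA : A.card + Aᶜ.card = Fintype.card V := card_add_card_compl A
  have cB : B.card + Bᶜ.card = Fintype.card V := card_add_card_compl B
  have cC : C.card + Cᶜ.card = Fintype.card V := card_add_card_compl C
  have cD : D.card + Dᶜ.card = Fintype.card V := card_add_card_compl D
  have cM : M.card + Mᶜ.card = Fintype.card V := card_add_card_compl M
  have fA : 3 ≤ A.card → 3 ≤ Aᶜ.card → 5 ≤ dd G A := five_le G hreg hcyc A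
  have fB : 3 ≤ B.card → 3 ≤ Bᶜ.card → 5 ≤ dd G B := five_le G hreg hcyc B
  have fC : 3 ≤ C.card → 3 ≤ Cᶜ.card → 5 ≤ dd G C := five_le G hreg hcyc C
  have fD : 3 ≤ D.card → 3 ≤ Dᶜ.card → 5 ≤ dd G D := five_le G hreg hcyc D
  have hAM : A ⊆ M := inter_subset_left
  have hAY : A ⊆ Y := inter_subset_right
  have hB0 : B.card ≠ 0 := by
    intro h
    apply hMY
    rw [card_eq_zero] at h
    exact sdiff_eq_empty_iff_subset.mp h
  have hAne : A ≠ M := by
    intro h
    rw [h] at c1
    omega
  have hA9 : dd G A = 5 → A.card < 9 := by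
    intro h
    by_contra h1
    exact hAne (hmin A hAM h (by omega))
  by_cases hC0 : C.card = 0
  · have hYM : Y ⊆ M := by
      rw [card_eq_zero] at hC0
      exact sdiff_eq_empty_iff_subset.mp hC0
    have hAY' : A = Y := by
      rw [hA]
      exact inter_eq_right.mpr hYM
    have h1 := hA9 (by rw [hAY']; exact hY)
    rw [hAY'] at h1
    exact ⟨by omega, Or.inl hYM⟩
  · -- one of the even quadrants is small
    have hsmall : B.card ≤ 2 ∨ C.card ≤ 2 := by
      by_contra hcon
      push Not at hcon
      have g1 := fB (by omega) (by omega)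
      have g2 := fC (by omega) (by omega)
      omega
    have hA5 : 5 ≤ A.card := by omega
    have hD5 : 5 ≤ D.card := by omega
    have gA := fA (by omega) (by omega)
    have gD := fD (by omega) (by omega)
    have hdA : dd G A = 5 := by omega
    have hA8 := hA9 hdA
    by_cases hB2 : B.card ≤ 2
    · exfalso
      exact h9 A M hdA hM hAM (by omega) (by omega) hM7'
    · by_cases hA7 : A.card = 7
      · exfalso
        exact h9 A Y hdA hY hAY hA7 (by omega) hY7'
      · exact ⟨by omega, Or.inr ⟨by omega, by omega, hdA, by omega⟩⟩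

end gen

end Pool.Agent.Helper49.RG
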