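import Pool.Agent.Helper19.RG.Sym
import Pool.Agent.Helper49.RG.Unc9

/-!
Lemma 2: cuts crossed by a spoke inside a minimal side.  (Problem MP_d067c8_co.)
-/

namespace Pool.Agent.Helper49.RG

open Finset Pool.Agent.Helper19.CF Pool.Agent.Helper19.RG

variable {N : ℕ} [NeZero N] {f : Equiv.Perm (ZMod N)}

/-- Every side with at least nine vertices contains a minimal one. -/
theorem exists_min9 {X : Finset (ZMod N ⊕ ZMod N)} (h : Side f X) (h9 : 9 ≤ X.card) :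
    ∃ M ⊆ X, Min9 f M := by
  classical
  have h1 : (univ.filter fun M : Finset (ZMod N ⊕ ZMod N) =>
      M ⊆ X ∧ Side f M ∧ 9 ≤ M.card).Nonempty := ⟨X, by simp [h, h9]⟩
  obtain ⟨M, hM, hmin⟩ := exists_min_image _ Finset.card h1
  rw [mem_filter] at hM
  refine ⟨M, hM.2.1, hM.2.2.1, hM.2.2.2, fun Z hZ hs h9 => ?_⟩
  have h2 := hmin Z (by
    rw [mem_filter]
    exact ⟨mem_univ _, hZ.trans hM.2.1, hs, h9⟩)
  exact eq_of_subset_of_card_le hZ h2

/-- One of the two sides of a 5-edge-cut crossed by a spoke inside the minimal side has seven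
vertices. -/
theorem lemma2 (hb : Bad f)
    (h1 : ∀ X Y : Finset (ZMod N ⊕ ZMod N), Side f X → X.card = 9 → Side f Y → Y.card = 7 →
      ¬ Y ⊆ X)
    {S : Finset (ZMod N ⊕ ZMod N)} (hS : Min9 f S) {Y : Finset (ZMod N ⊕ ZMod N)} (hY : Side f Y)
    {x : ZMod N} (hx : Inner f S x)
    (hc : ¬ ((.inl x : ZMod N ⊕ ZMod N) ∈ Y ↔ (.inr (f x) : ZMod N ⊕ ZMod N) ∈ Y)) :
    ∃ Z, (Z = Y ∨ Z = Yᶜ) ∧ Z.card = 7 ∧
      (Z ⊆ S ∨ ((Z ∩ S).card = 5 ∧
        cutSize (permGraph N f) ((Z ∩ S : Finset (ZMod N ⊕ ZMod N)) :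
          Set (ZMod N ⊕ ZMod N)) = 5)) := by
  classical
  have hN := hb.hN
  have hcyc := hb.cyc
  have hreg : ∀ v, (permGraph N f).degree v = 3 := permGraph_regular (by omega)
  have key : ∀ Z : Finset (ZMod N ⊕ ZMod N), Side f Z → (S ∩ Z).card % 2 = 1 → ¬ S ⊆ Z →
      Z.card = 7 ∧ (Z ⊆ S ∨ ((Z ∩ S).card = 5 ∧
        cutSize (permGraph N f) ((Z ∩ S : Finset (ZMod N ⊕ ZMod N)) :
          Set (ZMod N ⊕ ZMod N)) = 5)) := by
    intro Z hZ hodd hMZ
    have h4 := uncross9 (permGraph N f) hreg hcyc S Z hS.side.dd hZ.dd hS.nine hS.side.seven'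
      hZ.seven hZ.seven' ?_ ?_ hodd hMZ
    · rw [inter_comm Z S]
      refine ⟨h4.1, h4.2.imp_right fun h => ⟨h.1, ?_⟩⟩
      rw [cutSize_coe]
      exact h.2.2.1
    · intro X hX hd hc
      refine hS.min X hX ⟨by rw [cutSize_coe]; exact hd, by omega, ?_⟩ hc
      have h5 := card_le_card (compl_subset_compl.mpr hX)
      have h6 := hS.side.seven'
      omega
    · intro X Z' hX hZ' hXZ hX7 hZ9 hZ7
      refine h1 Z' X ⟨by rw [cutSize_coe]; exact hZ', by omega, hZ7⟩ hZ9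
        ⟨by rw [cutSize_coe]; exact hX, by omega, ?_⟩ hX7 hXZ
      have h5 := card_le_card (compl_subset_compl.mpr hXZ)
      omega
  have hpar : (S ∩ Y).card % 2 = 1 ∨ (S ∩ Yᶜ).card % 2 = 1 := by
    have c1 : (S ∩ Y).card + (S \ Y).card = S.card := card_inter_add_card_sdiff S Y
    have c2 : S ∩ Yᶜ = S \ Y := by ext v; simp
    have c3 := parity (permGraph N f) hreg S
    have c4 := hS.side.dd
    rw [c2]
    omega
  obtain ⟨hx1, hx2⟩ := hx
  rcases hpar with h | h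
  · have h4 := key Y hY h fun h5 => hc ⟨fun _ => h5 hx2, fun _ => h5 hx1⟩
    exact ⟨Y, Or.inl rfl, h4.1, h4.2⟩
  · have h4 := key Yᶜ hY.compl h fun h5 => by
      have g1 := mem_compl.mp (h5 hx1)
      have g2 := mem_compl.mp (h5 hx2)
      exact hc ⟨fun h => absurd h g1, fun h => absurd h g2⟩
    exact ⟨Yᶜ, Or.inr rfl, h4.1, h4.2⟩

end Pool.Agent.Helper49.RG
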